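import Pool.Agent.Helper12.SkewClass

set_option autoImplicit false

open Polynomial

namespace Pool.Agent.Results.MP_4834b2_nt.MaxKernelClassification

/-- The linearized trinomial `L_{a,b}(x) = a x + b σ(x) - σ^d(x)`, as an `F`-linear map `K → K`. -/
noncomputable def trinomial {F K : Type*} [Field F] [Field K] [Algebra F K]
    (σ : K ≃ₐ[F] K) (d : ℕ) (a b : K) : K →ₗ[F] K :=
  LinearMap.mulLeft F a + (LinearMap.mulLeft F b) ∘ₗ σ.toLinearMap - (σ ^ d).toLinearMap

section aux

open Pool.Agent.Helper12.Skew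

variable {F K : Type*} [Field F] [Field K] [Algebra F K]

lemma trinomial_eq (σ : K ≃ₐ[F] K) (d : ℕ) (a b : K) : trinomial σ d a b = tri σ d a b := rfl

lemma zz_eq (σ : K ≃ₐ[F] K) (d : ℕ) (a b : K) :
    zz σ d a b = -(b * ∏ i ∈ Finset.Icc 1 (d - 1), (σ ^ (i * d)) a) := by
  unfold zz
  congr 2
  have h1 : Finset.Icc 1 (d - 1) = Finset.Ico 1 (d - 1 + 1) := by
    ext i; simp only [Finset.mem_Icc, Finset.mem_Ico]; omega
  rw [h1, Finset.prod_Ico_eq_prod_range, Nat.add_sub_cancel]
  apply Finset.prod_congr rfl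
  intro i _
  rw [← pow_mul, mul_comm d, add_comm 1 i]

lemma prim_pow_iff {c : K} {d : ℕ} (h : IsPrimitiveRoot c d) (hd : 0 < d) (i j : ℕ) :
    c ^ i = c ^ j ↔ i ≡ j [MOD d] := by
  have e : ∀ i, c ^ i = c ^ (i % d) := fun i => by rw [h.eq_orderOf, pow_mod_orderOf]
  constructor
  · intro hij
    rw [e i, e j] at hij
    exact h.pow_inj (Nat.mod_lt _ hd) (Nat.mod_lt _ hd) hij
  · intro hij
    rw [e i, e j, hij]

/-- every automorphism is a power of Frobenius -/
lemma exists_frob [Fintype F] [Finite K] (g : K ≃ₐ[F] K) :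
    ∃ j : ℕ, ∀ x, g x = x ^ (Fintype.card F ^ j) := by
  obtain ⟨n, hn⟩ := (FiniteField.bijective_frobeniusAlgEquivOfAlgebraic_pow F K).2 g
  refine ⟨n.1, fun x => ?_⟩
  rw [← hn]
  change (FiniteField.frobeniusAlgEquivOfAlgebraic F K ^ (n : ℕ)) x = _
  rw [AlgEquiv.coe_pow]
  exact congrFun (FiniteField.coe_frobeniusAlgEquivOfAlgebraic_iterate F K n.1) x

/-- the norm as a product over the powers of `τ` -/
lemma norm_eq_AA [Finite F] [Finite K] (d n : ℕ) (hn : Module.finrank F K = n)
    (σ : K ≃ₐ[F] K) (hτ : ∀ g : K ≃ₐ[F] K, g ∈ Subgroup.zpowers (σ ^ d)) (a : K) :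
    algebraMap F K (Algebra.norm F a) = AA σ d a n := by
  classical
  rw [Algebra.norm_eq_prod_automorphisms]
  unfold AA
  have hcard : Nat.card (K ≃ₐ[F] K) = n := by
    rw [IsGalois.card_aut_eq_finrank, hn]
  have hord : orderOf (σ ^ d) = n := by
    rw [← Nat.card_zpowers, ← hcard]
    have : Subgroup.zpowers (σ ^ d) = ⊤ := by
      rw [eq_top_iff]; intro g _; exact hτ g
    rw [this]
    exact Subgroup.card_top
  have hinj : Set.InjOn (fun l : ℕ => (σ ^ d) ^ l) (Finset.range n) := by
    intro i hi j hj hij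
    rw [Finset.coe_range, Set.mem_Iio, ← hord] at hi hj
    exact pow_injOn_Iio_orderOf hi hj hij
  have himg : (Finset.range n).image (fun l : ℕ => (σ ^ d) ^ l) = Finset.univ := by
    apply Finset.eq_univ_of_card
    rw [Finset.card_image_of_injOn hinj, Finset.card_range, ← hcard, Nat.card_eq_fintype_card]
  rw [← himg, Finset.prod_image hinj]

end aux

open Pool.Agent.Helper12.Skew in
/-- **Classification of the maximum-kernel trinomials `L_{a,b}` for `n = d^2 - 1`.** -/
theorem result {F K : Type*} [Field F] [Fintype F] [Field K] [Finite K] [Algebra F K]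
    (d : ℕ) (hd : 3 ≤ d) (hn : Module.finrank F K = d ^ 2 - 1)
    (σ : K ≃ₐ[F] K) (hσ : ∀ g : K ≃ₐ[F] K, g ∈ Subgroup.zpowers σ) (a b : K) :
    Module.finrank F (LinearMap.ker (trinomial σ d a b)) = d ↔
      Algebra.norm F a = (-1) ^ (d - 1) ∧
        (((∃ e : ℕ, d = ringChar F ^ e) ∧
            b * ∏ i ∈ Finset.Icc 1 (d - 1), (σ ^ (i * d)) a = -1) ∨
          (d.Prime ∧ orderOf (Fintype.card F : ZMod d) = d - 1 ∧
            IsPrimitiveRoot (-(b * ∏ i ∈ Finset.Icc 1 (d - 1), (σ ^ (i * d)) a)) d)) := by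
  classical
  have hdd : 1 ≤ d ^ 2 := Nat.one_le_pow _ _ (by omega)
  -- characteristic
  obtain ⟨p, hpF⟩ := CharP.exists F
  have hpp : p.Prime := CharP.char_is_prime F p
  have : Fact p.Prime := ⟨hpp⟩
  have hpK : CharP K p := charP_of_injective_algebraMap (algebraMap F K).injective p
  have hring : ringChar F = p := ringChar.eq F p
  -- order of σ
  have hcard : Nat.card (K ≃ₐ[F] K) = d ^ 2 - 1 := by
    rw [IsGalois.card_aut_eq_finrank, hn]
  have hσ1 : σ ^ (d ^ 2 - 1) = 1 := by
    rw [← hcard]; exact pow_card_eq_one'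
  have htau : (σ ^ d) ^ d = σ := by
    rw [← pow_mul, show d * d = (d ^ 2 - 1) + 1 by rw [Nat.sub_add_cancel hdd]; ring, pow_succ,
      hσ1, one_mul]
  have hτ : ∀ g : K ≃ₐ[F] K, g ∈ Subgroup.zpowers (σ ^ d) := by
    intro g
    have h1 : σ ∈ Subgroup.zpowers (σ ^ d) :=
      Subgroup.mem_zpowers_iff.mpr ⟨(d : ℤ), by rw [zpow_natCast]; exact htau⟩
    exact (Subgroup.zpowers_le.mpr h1) (hσ g)
  -- fixed field
  have hfix : ∀ x : K, σ x = x → ∃ c : F, algebraMap F K c = x := by
    intro x hx
    have h1 : x ∈ (⊥ : IntermediateField F K) := by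
      rw [IsGalois.mem_bot_iff_fixed]
      intro g
      obtain ⟨k, rfl⟩ := Subgroup.mem_zpowers_iff.mp (hσ g)
      have h2 : σ ∈ MulAction.stabilizer (K ≃ₐ[F] K) x := hx
      exact (Subgroup.zpow_mem _ h2 k : σ ^ k ∈ MulAction.stabilizer (K ≃ₐ[F] K) x)
    rw [IntermediateField.mem_bot] at h1
    exact h1
  have hnorm := norm_eq_AA d (d ^ 2 - 1) hn σ hτ a
  have hinj : Function.Injective (algebraMap F K) := (algebraMap F K).injective
  rw [trinomial_eq, ← zz_eq]
  have hb1 : b * ∏ i ∈ Finset.Icc 1 (d - 1), (σ ^ (i * d)) a = - zz σ d a b := by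
    rw [zz_eq, neg_neg]
  rw [hb1]
  by_cases ha : a = 0
  · -- `a = 0` is impossible on both sides
    constructor
    · intro h
      exact absurd ha (a_ne_zero σ hfix d hd a b h)
    · rintro ⟨h, _⟩
      rw [ha, Algebra.norm_zero] at h
      exfalso
      have h2 : ((-1 : F) ^ (d - 1)) ≠ 0 := by apply pow_ne_zero; norm_num
      exact h2 h.symm
  have hN : σ (AA σ d a (d ^ 2 - 1)) = AA σ d a (d ^ 2 - 1) := by
    rw [← hnorm, AlgEquiv.commutes]
  rw [maxker_iff_rel σ hfix d hd hn hσ1 a b ha, rel_iff_relG σ d hd htau hσ1 a b ha,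
    relG_iff σ d hd hσ1 a _ ha hN]
  have hNiff : AA σ d a (d ^ 2 - 1) = (-1) ^ (d - 1) ↔ Algebra.norm F a = (-1) ^ (d - 1) := by
    rw [← hnorm]
    constructor
    · intro h
      apply hinj
      rw [h]; simp
    · intro h
      rw [h]; simp
  rw [hNiff]
  apply and_congr_right
  intro _
  set c := zz σ d a b with hc
  have hneg : (- c = -1) ↔ c = 1 := neg_inj
  rw [hneg, hring]
  let y : ℕ → K := fun l => ((σ ^ d) ^ l) c
  have hy0 : y 0 = c := rfl
  have hysucc : ∀ l, y (l + 1) = (σ ^ d : K ≃ₐ[F] K) (y l) := by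
    intro l
    change ((σ ^ d) ^ (l + 1)) c = _
    rw [pow_succ']; rfl
  constructor
  · rintro ⟨hsc, hP⟩
    have hcl := roots_classification p d hd ((σ ^ d : K ≃ₐ[F] K) : K ≃+* K) y hysucc hP
    rcases hcl with ⟨h1, h2⟩ | ⟨h1, h2, h3, h4⟩
    · exact Or.inl ⟨h1, h2⟩
    · refine Or.inr ⟨h1, ?_, h3⟩
      have : Fact d.Prime := ⟨h1⟩
      have hq0 : (Fintype.card F : ZMod d) ≠ 0 := by
        intro h
        rw [ZMod.natCast_eq_zero_iff] at h
        obtain ⟨m, _, hm⟩ := FiniteField.card F p
        rw [hm] at h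
        have h5 := h1.dvd_of_dvd_pow h
        rw [Nat.prime_dvd_prime_iff_eq h1 hpp] at h5
        apply h2
        rw [h5]
        exact CharP.cast_eq_zero K p
      have hdvd : orderOf (Fintype.card F : ZMod d) ∣ d - 1 :=
        orderOf_dvd_of_pow_eq_one (ZMod.pow_card_sub_one_eq_one hq0)
      have hle : orderOf (Fintype.card F : ZMod d) ≤ d - 1 := Nat.le_of_dvd (by omega) hdvd
      refine le_antisymm hle ?_
      choose j hj using fun l : ℕ => exists_frob ((σ ^ d) ^ l)
      -- the powers q^(j l) are distinct mod d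
      have hpow : Set.InjOn (fun l => (Fintype.card F : ZMod d) ^ (j l)) (Finset.Ico 1 d) := by
        intro l hl m hm hlm
        apply h4 (by simpa using hl) (by simpa using hm)
        change ((σ ^ d) ^ l) c = ((σ ^ d) ^ m) c
        rw [hj l c, hj m c]
        have h5 : Fintype.card F ^ j l ≡ Fintype.card F ^ j m [MOD d] := by
          rw [← ZMod.natCast_eq_natCast_iff]
          push_cast
          exact hlm
        exact (prim_pow_iff h3 (by omega) _ _).mpr h5
      have himg : ((Finset.Ico 1 d).image (fun l => (Fintype.card F : ZMod d) ^ (j l))).card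
          = d - 1 := by
        rw [Finset.card_image_of_injOn hpow, Nat.card_Ico]
      rw [← himg]
      have hpos : 0 < orderOf (Fintype.card F : ZMod d) :=
        Nat.pos_of_dvd_of_pos hdvd (by omega)
      have hsub : ((Finset.Ico 1 d).image (fun l => (Fintype.card F : ZMod d) ^ (j l))) ⊆
          (Finset.range (orderOf (Fintype.card F : ZMod d))).image
            (fun k => (Fintype.card F : ZMod d) ^ k) := by
        intro z hz
        rw [Finset.mem_image] at hz ⊢
        obtain ⟨l, _, rfl⟩ := hz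
        exact ⟨j l % orderOf (Fintype.card F : ZMod d),
          Finset.mem_range.mpr (Nat.mod_lt _ hpos), pow_mod_orderOf _ _⟩
      refine (Finset.card_le_card hsub).trans (Finset.card_image_le.trans ?_)
      rw [Finset.card_range]
  · rintro (⟨⟨e, he⟩, h2⟩ | ⟨h1, h2, h3⟩)
    · have hall : ∀ l, ((σ ^ d) ^ l) c = 1 := by
        intro l; rw [h2, map_one]
      refine ⟨by rw [h2, map_one, map_one], ?_⟩
      unfold PolyId
      rw [Finset.prod_congr rfl (fun l _ => by rw [hall l, C_1]), Finset.prod_const, Nat.card_Ico,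
        ← pow_succ', show d - 1 + 1 = d by omega]
      conv_lhs => rw [he]
      conv_rhs => rw [he]
      rw [sub_pow_char_pow, one_pow]
    · have : Fact d.Prime := ⟨h1⟩
      have : NeZero d := ⟨h1.ne_zero⟩
      let χ := h3.autToPow F
      have hχ : ∀ g : K ≃ₐ[F] K, c ^ ((χ g : (ZMod d)ˣ) : ZMod d).val = g c :=
        fun g => h3.autToPow_spec F g
      have hunits : Fintype.card (ZMod d)ˣ = d - 1 := ZMod.card_units d
      have hdvd1 : orderOf (χ σ) ∣ d - 1 := by
        rw [← hunits]; exact orderOf_dvd_card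
      -- Frobenius
      set φ := FiniteField.frobeniusAlgEquivOfAlgebraic F K with hφ
      have hφc : φ c = c ^ Fintype.card F := by
        rw [hφ, FiniteField.coe_frobeniusAlgEquivOfAlgebraic]
      have hχφ : ((χ φ : (ZMod d)ˣ) : ZMod d) = (Fintype.card F : ZMod d) := by
        have h5 := hχ φ
        rw [hφc, prim_pow_iff h3 (by omega), ← ZMod.natCast_eq_natCast_iff] at h5
        rw [← h5, ZMod.natCast_zmod_val]
      have hordφ : orderOf (χ φ) = d - 1 := by
        rw [← orderOf_units, hχφ, h2]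
      have hordσ : orderOf (χ σ) = d - 1 := by
        apply Nat.dvd_antisymm hdvd1
        obtain ⟨k, hk⟩ := Subgroup.mem_zpowers_iff.mp (hσ φ)
        have h5 : χ φ ∈ Subgroup.zpowers (χ σ) := by
          rw [← hk, map_zpow]
          exact Subgroup.zpow_mem _ (Subgroup.mem_zpowers _) k
        rw [← hordφ]
        exact orderOf_dvd_of_mem_zpowers h5
      -- σ^(d-1) fixes c
      have hχeq : ∀ g h : K ≃ₐ[F] K, χ g = χ h → g c = h c := by
        intro g h hgh
        rw [← hχ g, ← hχ h, hgh]
      have hστ : χ (σ ^ d) = χ σ := by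
        have h5 : (χ σ) ^ (d - 1) = 1 := by rw [← hordσ]; exact pow_orderOf_eq_one _
        have h6 : (χ σ) ^ ((d - 1) + 1) = χ σ := by rw [pow_succ, h5, one_mul]
        have h7 : (d - 1) + 1 = d := by omega
        rw [h7] at h6
        rw [map_pow, h6]
      have hsc : σ c = (σ ^ d) c := (hχeq _ _ hστ).symm
      refine ⟨hsc, ?_⟩
      -- the elements are distinct
      have hχinj : ∀ g h : K ≃ₐ[F] K, g c = h c → χ g = χ h := by
        intro g h hgh
        rw [← hχ g, ← hχ h, prim_pow_iff h3 (by omega), ← ZMod.natCast_eq_natCast_iff, ZMod.natCast_zmod_val, ZMod.natCast_zmod_val] at hgh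
        exact Units.ext hgh
      have hyinj : Set.InjOn y (Finset.Ico 1 d) := by
        intro l hl m hm hlm
        have h5 := hχinj ((σ ^ d) ^ l) ((σ ^ d) ^ m) hlm
        rw [map_pow χ (σ ^ d) l, map_pow χ (σ ^ d) m, hστ] at h5
        rw [Finset.coe_Ico, Set.mem_Ico] at hl hm
        obtain ⟨l', rfl⟩ : ∃ l', l = l' + 1 := ⟨l - 1, by omega⟩
        obtain ⟨m', rfl⟩ : ∃ m', m = m' + 1 := ⟨m - 1, by omega⟩
        rw [pow_succ, pow_succ] at h5
        have h6 := mul_right_cancel h5
        have h7 : l' = m' := by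
          apply pow_injOn_Iio_orderOf (x := χ σ) _ _ h6
          · rw [Set.mem_Iio, hordσ]; omega
          · rw [Set.mem_Iio, hordσ]; omega
        rw [h7]
      have hyd : ∀ l, y l ^ d = 1 := by
        intro l
        change (((σ ^ d) ^ l) c) ^ d = 1
        rw [← map_pow, h3.pow_eq_one, map_one]
      have hy1 : ∀ l, y l ≠ 1 := by
        intro l hl
        have h5 : ((σ ^ d) ^ l) c = ((σ ^ d) ^ l) 1 := by rw [map_one]; exact hl
        exact h3.ne_one (by omega) (((σ ^ d) ^ l).injective h5)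
      unfold PolyId
      rw [X_pow_sub_one_eq_prod (by omega) h3]
      have hset : nthRootsFinset d (1 : K) = insert 1 ((Finset.Ico 1 d).image y) := by
        symm
        apply Finset.eq_of_subset_of_card_le
        · intro z hz
          rw [Finset.mem_insert, Finset.mem_image] at hz
          rw [mem_nthRootsFinset (by omega)]
          rcases hz with rfl | ⟨l, _, rfl⟩
          · exact one_pow d
          · exact hyd l
        · rw [h3.card_nthRootsFinset, Finset.card_insert_of_notMem, Finset.card_image_of_injOn hyinj,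
            Nat.card_Ico]
          · omega
          · rw [Finset.mem_image]
            rintro ⟨l, _, hl⟩
            exact hy1 l hl
      rw [hset, Finset.prod_insert, Finset.prod_image hyinj, C_1]
      rw [Finset.mem_image]
      rintro ⟨l, _, hl⟩
      exact hy1 l hl

end Pool.Agent.Results.MP_4834b2_nt.MaxKernelClassification
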